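import Pool.Agent.Y206.Q.Stm

/-!
# QG-SEGRE: a smooth quadric of `ℙ^3` is the Segre quadric
-/

set_option autoImplicit false
set_option maxHeartbeats 200000
open MvPolynomial Matrix

namespace Pool.Agent.Y471.QG

/-- a form of degree 2 is a quadratic form with a matrix -/
theorem exists_matrix {q : MvPolynomial (Fin 4) ℂ} (h : q.IsHomogeneous 2) :
    ∃ A : Fin 4 → Fin 4 → ℂ, q = ∑ i, ∑ j, C (A i j) * (X i * X j) := by
  have h1 : ∀ i, pderiv i q = ∑ j, X j * C (coeff 0 (pderiv j (pderiv i q))) := by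
    intro i
    have h2 : (pderiv i q).IsHomogeneous 1 := h.pderiv
    have h3 := h2.sum_X_mul_pderiv
    rw [one_smul] at h3
    rw [← h3]
    refine Finset.sum_congr rfl fun j _ => ?_
    have h4 : (pderiv j (pderiv i q)).IsHomogeneous 0 := h2.pderiv
    have h5 : pderiv j (pderiv i q) = C (coeff 0 (pderiv j (pderiv i q))) :=
      (totalDegree_eq_zero_iff_eq_C).1 (by
        have := h4.totalDegree_le
        omega)
    rw [h3]
    exact congrArg (X j * ·) h5
  refine ⟨fun i j => (1 / 2) * coeff 0 (pderiv j (pderiv i q)), ?_⟩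
  have h2 := h.sum_X_mul_pderiv
  have h3 : q = C (1 / 2) * ((2 : ℕ) • q) := by
    rw [nsmul_eq_mul, ← mul_assoc]
    have : (C (1 / 2 : ℂ) : MvPolynomial (Fin 4) ℂ) * ((2 : ℕ) : MvPolynomial (Fin 4) ℂ) = 1 := by
      rw [← map_natCast (C : ℂ →+* MvPolynomial (Fin 4) ℂ), ← C_mul]
      norm_num
    rw [this, one_mul]
  calc q = C (1 / 2) * ((2 : ℕ) • q) := h3
    _ = C (1 / 2) * ∑ i, X i * ∑ j, X j * C (coeff 0 (pderiv j (pderiv i q))) := by
        rw [← h2]
        exact congrArg _ (Finset.sum_congr rfl fun i _ => congrArg _ (h1 i))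
    _ = _ := by
        rw [Finset.mul_sum]
        refine Finset.sum_congr rfl fun i _ => ?_
        rw [Finset.mul_sum, Finset.mul_sum]
        refine Finset.sum_congr rfl fun j _ => ?_
        rw [C_mul]
        ring

theorem eval_quad (A : Fin 4 → Fin 4 → ℂ) (v : Fin 4 → ℂ) :
    eval v (∑ i, ∑ j, C (A i j) * (X i * X j)) = ∑ i, ∑ j, A i j * (v i * v j) := by
  simp [map_sum]

theorem eval_pderiv_quad (A : Fin 4 → Fin 4 → ℂ) (v : Fin 4 → ℂ) (k : Fin 4) :
    eval v (pderiv k (∑ i, ∑ j, C (A i j) * (X i * X j))) = ∑ j, (A k j + A j k) * v j := by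
  simp only [map_sum, pderiv_C_mul, Derivation.leibniz, pderiv_X, smul_eq_mul, map_add, map_mul,
    eval_X, eval_C, Fin.sum_univ_four]
  fin_cases k <;> simp [Pi.single_apply] <;> ring

/-- the bilinear map with matrix `A` -/
noncomputable def bil (A : Fin 4 → Fin 4 → ℂ) : LinearMap.BilinMap ℂ (Fin 4 → ℂ) ℂ :=
  Matrix.toLinearMap₂' ℂ (Matrix.of A)

theorem bil_apply (A : Fin 4 → Fin 4 → ℂ) (v w : Fin 4 → ℂ) :
    bil A v w = ∑ i, ∑ j, A i j * (v i * w j) := by
  rw [bil, Matrix.toLinearMap₂'_apply]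
  refine Finset.sum_congr rfl fun i _ => Finset.sum_congr rfl fun j _ => ?_
  simp [smul_eq_mul]
  ring

/-- the quadratic form with matrix `A` -/
noncomputable def qf (A : Fin 4 → Fin 4 → ℂ) : QuadraticForm ℂ (Fin 4 → ℂ) :=
  LinearMap.BilinMap.toQuadraticMap (bil A)

theorem qf_apply (A : Fin 4 → Fin 4 → ℂ) (v : Fin 4 → ℂ) :
    qf A v = ∑ i, ∑ j, A i j * (v i * v j) := by
  rw [qf, LinearMap.BilinMap.toQuadraticMap_apply, bil_apply]

theorem separating (A : Fin 4 → Fin 4 → ℂ)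
    (h : ∀ v : Fin 4 → ℂ, (∀ k, ∑ j, (A k j + A j k) * v j = 0) → v = 0) :
    (QuadraticMap.associated (qf A)).SeparatingLeft := by
  intro v hv
  apply h
  intro k
  have h1 := hv (Pi.single k 1)
  rw [qf, QuadraticMap.associated_toQuadraticMap, invOf_smul_eq_iff, smul_zero, bil_apply,
    bil_apply] at h1
  rw [← h1]
  simp only [Fin.sum_univ_four]
  fin_cases k <;> simp <;> ring

/-- the numbering of the four basis vectors -/
def ix : Fin 2 → Fin 2 → Fin 4 := ![![0, 1], ![2, 3]]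

theorem ix_inj : Function.Injective (fun p : Fin 2 × Fin 2 => ix p.1 p.2) := by decide

theorem rank_one (a b c d : ℂ) (h : a * d = b * c) :
    ∃ s t : Fin 2 → ℂ, a = s 0 * t 0 ∧ b = s 0 * t 1 ∧ c = s 1 * t 0 ∧ d = s 1 * t 1 := by
  by_cases h0 : a = 0
  · rw [h0, zero_mul] at h
    rcases mul_eq_zero.1 h.symm with h3 | h3
    · exact ⟨![0, 1], ![c, d], by simp [h0], by simp [h3], by simp, by simp⟩
    · exact ⟨![b, d], ![0, 1], by simp [h0], by simp, by simp [h3], by simp⟩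
  · refine ⟨![1, c / a], ![a, b], by simp, by simp, by simp [h0], ?_⟩
    simp only [Matrix.cons_val_one, Matrix.cons_val_zero, Matrix.cons_val_fin_one]
    field_simp
    linear_combination h

theorem expand (g : (Fin 4 → ℂ) →ₗ[ℂ] (Fin 4 → ℂ)) (w : Fin 4 → ℂ) :
    g w = w 0 • g (Pi.single 0 1) + w 1 • g (Pi.single 1 1) + w 2 • g (Pi.single 2 1)
        + w 3 • g (Pi.single 3 1) := by
  have hws : w = w 0 • Pi.single 0 1 + w 1 • Pi.single 1 1 + w 2 • Pi.single 2 1
      + w 3 • Pi.single 3 1 := by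
    funext i
    fin_cases i <;> simp
  calc g w = g (w 0 • Pi.single 0 1 + w 1 • Pi.single 1 1 + w 2 • Pi.single 2 1
      + w 3 • Pi.single 3 1) := congrArg g hws
    _ = _ := by rw [map_add, map_add, map_add, map_smul, map_smul, map_smul, map_smul]

/-- the matrix of the standard form -/
def Bm : Fin 4 → Fin 4 → ℂ := ![![0, 0, 0, 1], ![0, 0, -1, 0], ![0, 0, 0, 0], ![0, 0, 0, 0]]

theorem qf_Bm (v : Fin 4 → ℂ) : qf Bm v = v 0 * v 3 - v 1 * v 2 := by
  rw [qf_apply]
  simp [Bm, Fin.sum_univ_four]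
  ring

theorem sep_Bm : (QuadraticMap.associated (qf Bm)).SeparatingLeft := by
  apply separating
  intro v hv
  have h0 := hv 0
  have h3 := hv 1
  have h4 := hv 2
  have h5 := hv 3
  simp [Bm, Fin.sum_univ_four] at h0 h3 h4 h5
  funext i
  fin_cases i
  · exact h5
  · exact h4
  · exact h3
  · exact h0

theorem exists_equiv (A : Fin 4 → Fin 4 → ℂ)
    (h : (QuadraticMap.associated (qf A)).SeparatingLeft) :
    ∃ f : (Fin 4 → ℂ) ≃ₗ[ℂ] (Fin 4 → ℂ), ∀ v, qf Bm (f v) = qf A v := by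
  obtain ⟨φ⟩ := QuadraticForm.equivalent_of_isAlgClosed (qf A) (qf Bm) h sep_Bm
  exact ⟨φ.toLinearEquiv, fun v => φ.map_app v⟩

theorem segre : Pool.Agent.Y206.Q.S_SEGRE := by
  intro q hq hns
  obtain ⟨A, rfl⟩ := exists_matrix hq
  have h1 : (QuadraticMap.associated (qf A)).SeparatingLeft := by
    apply separating
    intro v hv
    apply hns
    intro i
    rw [eval_pderiv_quad]
    exact hv i
  obtain ⟨f, hf⟩ := exists_equiv A h1
  refine ⟨fun i j => f.symm (Pi.single (ix i j) 1), ?_, ?_⟩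
  · have h3 : LinearIndependent ℂ (fun k : Fin 4 => f.symm (Pi.single k (1 : ℂ))) :=
      (Pi.linearIndependent_single_one (Fin 4) ℂ).map' f.symm.toLinearMap f.symm.ker
    exact h3.comp (fun p : Fin 2 × Fin 2 => ix p.1 p.2) ix_inj
  · intro v hv
    have hv1 : f v 0 * f v 3 - f v 1 * f v 2 = 0 := by
      rw [← qf_Bm, hf, qf_apply, ← eval_quad]
      exact hv
    obtain ⟨s, t, e0, e1, e2, e3⟩ := rank_one (f v 0) (f v 1) (f v 2) (f v 3)
      (by linear_combination hv1)
    refine ⟨s, t, ?_⟩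
    have h4 := expand f.symm.toLinearMap (f v)
    rw [e0, e1, e2, e3] at h4
    have h5 : f.symm.toLinearMap (f v) = v := f.symm_apply_apply v
    rw [h5] at h4
    exact h4

end Pool.Agent.Y471.QG
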